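import Mathlib
import Pool.Agent.helper88.BDG.Final

/-!
MP_c5c754_ag, Q1: the number of common rational zeros in projective `m`-space of `r` linearly
independent forms of degree `d < q` (the Beelen-Datta-Ghorpade conjecture), for all `r`.

The main inequality is `BDG.main_ineq` (file `Pool/Agent/helper88/BDG/Main.lean`); numerical
modules by helper35 and helper94, lower-bound construction by helper91, Macaulay tuples by helper94.
-/

namespace Pool.Agent.Results.MP_c5c754_ag.BeelenDattaGhorpade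

open Finset

/-- The set `V(B)(F)` of points of projective `m`-space over `F` at which every element of `B`
vanishes: `P` belongs to it when every `f` in `B` is zero at every nonzero vector `v` of
`F ^ (m + 1)` that represents `P`. -/
def zeroLocus {F : Type*} [Field F] {m : ℕ} (B : Set (MvPolynomial (Fin (m + 1)) F)) :
    Set (Projectivization F (Fin (m + 1) → F)) :=
  {P | ∀ f ∈ B, ∀ (v : Fin (m + 1) → F) (hv : v ≠ 0), Projectivization.mk F v hv = P →
    MvPolynomial.eval v f = 0}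

/-- `s` gives the Macaulay expansion of `N` in degree `d`:
`N = binom(s_d, d) + ... + binom(s_1, 1)` with `s_d > ... > s_1 ≥ 0`
(only the values `s 1, ..., s d` matter). -/
def IsMacaulay (d N : ℕ) (s : ℕ → ℕ) : Prop :=
  (∀ a, 1 ≤ a → a < d → s a < s (a + 1)) ∧ ∑ a ∈ Icc 1 d, (s a).choose a = N

/-- `p_k = q^k + ... + q + 1` for an integer `k ≥ 0`, and `p_{-1} = 0`. -/
def pk (q : ℕ) (k : ℤ) : ℕ := ∑ j ∈ range (k + 1).toNat, q ^ j

/-- The number `p_{m_d} + Σ_{1 ≤ a < d} ⌊q^{m_a}⌋` with `m_a = s_a - a`. -/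
noncomputable def L (q d : ℕ) (s : ℕ → ℕ) : ℕ :=
  pk q ((s d : ℤ) - d) + ∑ a ∈ Ico 1 d, ⌊(q : ℚ) ^ ((s a : ℤ) - a)⌋₊

lemma L_eq {q : ℕ} (hq : 2 ≤ q) (d : ℕ) (s : ℕ → ℕ) : L q d s = BDG.Lval q d s := by
  unfold L BDG.Lval pk
  congr 1
  · congr 2
    omega
  · refine Finset.sum_congr rfl fun a _ => ?_
    split_ifs with h
    · have h1 : ((s a : ℤ) - a) = ((s a - a : ℕ) : ℤ) := by omega
      rw [h1, zpow_natCast, ← Nat.cast_pow, Nat.floor_natCast]
    · rw [Nat.floor_eq_zero]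
      have h1 : ((s a : ℤ) - a) ≤ -1 := by omega
      have hq1 : (1 : ℚ) < q := by exact_mod_cast (by omega : 1 < q)
      calc (q : ℚ) ^ ((s a : ℤ) - a) ≤ (q : ℚ) ^ (-1 : ℤ) := zpow_le_zpow_right₀ hq1.le h1
        _ = (q : ℚ)⁻¹ := zpow_neg_one _
        _ < 1 := inv_lt_one_of_one_lt₀ hq1

section aux
variable {F : Type*} [Field F] [Fintype F] {m : ℕ}

lemma eval_smul {d : ℕ} {f : MvPolynomial (Fin (m + 1)) F} (hf : f.IsHomogeneous d) (c : F)
    (v : Fin (m + 1) → F) : MvPolynomial.eval (c • v) f = c ^ d * MvPolynomial.eval v f := by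
  refine BDG.eval_smul_LPh d f ?_ c v
  rw [BDG.LPh_pow_eq, MvPolynomial.mem_homogeneousSubmodule]
  exact hf

/-- the affine cone over the zero set -/
lemma exists_cone [DecidableEq F] {d : ℕ} (B : Finset (MvPolynomial (Fin (m + 1)) F))
    (hBh : ∀ f ∈ B, f.IsHomogeneous d) :
    ∃ X : Finset (Fin (m + 1) → F), BDG.IsCone F X ∧
      (∀ f ∈ B, ∀ v ∈ X, MvPolynomial.eval v f = 0) ∧
      (∀ v, v ≠ 0 → (∀ f ∈ B, MvPolynomial.eval v f = 0) → v ∈ X) ∧
      #X = (Fintype.card F - 1) *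
        Nat.card (zeroLocus (B : Set (MvPolynomial (Fin (m + 1)) F))) := by
  classical
  let X : Finset (Fin (m + 1) → F) :=
    univ.filter fun v => v ≠ 0 ∧ ∀ f ∈ B, MvPolynomial.eval v f = 0
  have hX : ∀ v, v ∈ X ↔ v ≠ 0 ∧ ∀ f ∈ B, MvPolynomial.eval v f = 0 := fun v => by
    simp [X]
  refine ⟨X, ⟨fun h => ((hX 0).1 h).1 rfl, fun c hc x hx => ?_⟩, fun f hf v hv =>
    ((hX v).1 hv).2 f hf, fun v hv h => (hX v).2 ⟨hv, h⟩, ?_⟩
  · obtain ⟨h1, h2⟩ := (hX x).1 hx
    refine (hX _).2 ⟨smul_ne_zero hc h1, fun f hf => ?_⟩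
    rw [eval_smul (hBh f hf), h2 f hf, mul_zero]
  · refine BDG.card_cone_proj (fun h => ((hX 0).1 h).1 rfl) fun v hv => ?_
    constructor
    · intro h f hf w hw hwv
      rw [Projectivization.mk_eq_mk_iff] at hwv
      obtain ⟨a, ha⟩ := hwv
      rw [← ha]
      show MvPolynomial.eval ((a : F) • v) f = 0
      rw [eval_smul (hBh f hf), ((hX v).1 h).2 f hf, mul_zero]
    · intro h
      exact (hX v).2 ⟨hv, fun f hf => h f hf v hv rfl⟩

/-- upper bound -/
lemma upper {d r : ℕ} (hd : 1 ≤ d) (hdq : d < Fintype.card F)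
    {s : ℕ → ℕ} (hs : BDG.IsMac d ((m + d).choose d - r) s)
    (B : Finset (MvPolynomial (Fin (m + 1)) F)) (hB : #B = r)
    (hBh : ∀ f ∈ B, f.IsHomogeneous d)
    (hBi : LinearIndependent F (fun f : B => (f : MvPolynomial (Fin (m + 1)) F))) :
    Nat.card (zeroLocus (B : Set (MvPolynomial (Fin (m + 1)) F))) ≤
      BDG.Lval (Fintype.card F) d s := by
  classical
  obtain ⟨q, hq⟩ : ∃ q, Fintype.card F = q := ⟨_, rfl⟩
  have hq2 : 2 ≤ q := hq ▸ Fintype.one_lt_card
  obtain ⟨X, hX, hBX, -, hXc⟩ := exists_cone B hBh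
  rw [hq] at hXc hdq ⊢
  set z := Nat.card (zeroLocus (B : Set (MvPolynomial (Fin (m + 1)) F))) with hz
  have h1 := BDG.Hs_le_of_indep B hB hBh hBi hBX
  have h2 := BDG.Hs_le_Hs (AlgebraicClosure F) (F := F) X d
  have hR : BDG.R m d = (m + d).choose d := rfl
  rw [hR] at h1
  obtain ⟨f, hf, hfd, hcase⟩ := BDG.mac_spec q d _ hd hdq s hs
  rcases hcase with ⟨hN, -, hL⟩ | ⟨M, hM1, hM2, hR1, hR2, hL⟩
  · rw [hL]
    have h3 : BDG.Hs (BDG.Lf F F (Fin (m + 1) → F)) X d = 0 := by omega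
    have h4 : X = ∅ := by
      rw [Finset.eq_empty_iff_forall_notMem]
      intro x hx
      have hx0 : x ≠ 0 := fun h0 => hX.zero (h0 ▸ hx)
      have := BDG.Hs_pos (K := F) (F := F) X d hx hx0
      omega
    rw [h4, Finset.card_empty] at hXc
    rcases Nat.mul_eq_zero.1 hXc.symm with h5 | h5
    · omega
    · omega
  · rw [hL]
    have h3 := BDG.main_ineq (K := AlgebraicClosure F) hq m d hd hdq (Fin (m + 1) → F)
      (by rw [Module.finrank_fin_fun]) X hX z hXc M (by omega)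
    have h4 : z - BDG.pr q M ≤ f := BDG.le_of_D_le hfd (by omega)
    omega

/-- lower bound -/
lemma lower {d r : ℕ} (hd : 1 ≤ d) (hdq : d < Fintype.card F) (hr : 1 ≤ r)
    (hrD : r ≤ (m + d).choose d)
    {s : ℕ → ℕ} (hs : BDG.IsMac d ((m + d).choose d - r) s) :
    ∃ B : Finset (MvPolynomial (Fin (m + 1)) F), #B = r ∧ (∀ f ∈ B, f.IsHomogeneous d) ∧
      LinearIndependent F (fun f : B => (f : MvPolynomial (Fin (m + 1)) F)) ∧
      BDG.Lval (Fintype.card F) d s ≤
        Nat.card (zeroLocus (B : Set (MvPolynomial (Fin (m + 1)) F))) := by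
  classical
  obtain ⟨q, hq⟩ : ∃ q, Fintype.card F = q := ⟨_, rfl⟩
  have hq2 : 2 ≤ q := hq ▸ Fintype.one_lt_card
  have hR : BDG.R m d = (m + d).choose d := rfl
  obtain ⟨f, hf, hfd, hcase⟩ := BDG.mac_spec (Fintype.card F) d _ hd hdq s hs
  rcases hcase with ⟨hN, -, hL⟩ | ⟨M, hM1, hM2, hR1, hR2, hL⟩
  · rw [hL]
    have h0 : BDG.Hs (BDG.Lf F F (Fin (m + 1) → F)) (∅ : Finset (Fin (m + 1) → F)) d = 0 := by
      have := BDG.Hs_le_card (BDG.Lf F F (Fin (m + 1) → F)) (∅ : Finset (Fin (m + 1) → F)) d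
      rw [Finset.card_empty] at this
      omega
    obtain ⟨B, hB1, hB2, hB3, -⟩ := BDG.exists_indep (m := m) (X := ∅) (d := d) (r := r) hdq
      (by rw [h0, hR]; omega)
    exact ⟨B, hB1, hB2, hB3, Nat.zero_le _⟩
  · rw [hL]
    have hMm : M + 1 ≤ m := by
      by_contra hcon
      push Not at hcon
      have h1 : (m + d).choose d ≤ BDG.R M d := by
        unfold BDG.R
        exact Nat.choose_le_choose _ (by omega)
      omega
    obtain ⟨X, hX, hXc, hXH⟩ := BDG.lower_set (F := F) m M d f hd hdq hMm hM1 hM2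
    rw [hf] at hXH
    obtain ⟨B, hB1, hB2, hB3, hB4⟩ := BDG.exists_indep (m := m) (X := X) (d := d) (r := r) hdq
      (by rw [hR]; omega)
    refine ⟨B, hB1, hB2, hB3, ?_⟩
    obtain ⟨Y, hY, -, hY2, hYc⟩ := exists_cone B hB2
    have hXY : X ⊆ Y := by
      intro v hv
      exact hY2 v (fun h0 => hX.zero (h0 ▸ hv)) fun f hf => hB4 f hf v hv
    have h1 := Finset.card_le_card hXY
    rw [hXc, hYc] at h1
    exact Nat.le_of_mul_le_mul_left h1 (by omega)

end aux

/-- Complete answer to Q1: for every finite field `F` with `q` elements, every `m ≥ 0`, every degree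
`1 ≤ d < q` and every `1 ≤ r ≤ binom(m+d, d)`, the maximal number of common zeros in projective
`m`-space over `F` of `r` linearly independent forms of degree `d` is
`L = p_{m_d} + Σ_{1 ≤ a < d} ⌊q^{m_a}⌋`, where `(m_d, ..., m_1)` is the Macaulay `d`-tuple of
`binom(m+d, d) - r` (which exists). -/
theorem result {F : Type*} [Field F] [Fintype F] (m d r : ℕ) (hd : 1 ≤ d)
    (hdq : d < Fintype.card F) (hr : 1 ≤ r) (hrD : r ≤ (m + d).choose d) :
    (∃ s, IsMacaulay d ((m + d).choose d - r) s) ∧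
    ∀ s, IsMacaulay d ((m + d).choose d - r) s →
      IsGreatest {n : ℕ | ∃ B : Finset (MvPolynomial (Fin (m + 1)) F), B.card = r ∧
        (∀ f ∈ B, f.IsHomogeneous d) ∧
        LinearIndependent F (fun f : B => (f : MvPolynomial (Fin (m + 1)) F)) ∧
        Nat.card (zeroLocus (B : Set (MvPolynomial (Fin (m + 1)) F))) = n}
      (L (Fintype.card F) d s) := by
  refine ⟨BDG.exists_mac d _ hd, fun s hs => ?_⟩
  rw [L_eq Fintype.one_lt_card]
  constructor
  · obtain ⟨B, hB1, hB2, hB3, hB4⟩ := lower (F := F) hd hdq hr hrD hs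
    exact ⟨B, hB1, hB2, hB3, le_antisymm (upper hd hdq hs B hB1 hB2 hB3) hB4⟩
  · rintro n ⟨B, hB1, hB2, hB3, rfl⟩
    exact upper hd hdq hs B hB1 hB2 hB3

end Pool.Agent.Results.MP_c5c754_ag.BeelenDattaGhorpade
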